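import Pool.Agent.H12.KP.Targets4

/-! Row BIN of the board kpi_modules. -/

namespace Pool.Agent.H78.KP

open Pool.Agent.H12.KP Polynomial TensorProduct

universe u v

theorem binom_aux {R : Type u} [CommRing R] (p : ℕ) (hp : p.Prime) (X W : R) :
    ∃ c : R, (X + W) ^ p = X ^ p + (p : R) * (X ^ (p - 1) * W) + (p : R) * (W ^ 2 * c) + W ^ p := by
  have h1 := Commute.add_pow_prime_eq hp (Commute.all X W)
  have hp2 := hp.two_le
  have hmem : p - 1 ∈ Finset.Ioo 0 p := by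
    rw [Finset.mem_Ioo]; omega
  have h2 : W ∣ ∑ k ∈ (Finset.Ioo 0 p).erase (p - 1),
      X ^ (k - 1) * W ^ (p - k - 1) * ((p.choose k / p : ℕ) : R) := by
    refine Finset.dvd_sum fun k hk => ?_
    rw [Finset.mem_erase, Finset.mem_Ioo] at hk
    have h3 : W ∣ W ^ (p - k - 1) := dvd_pow_self W (by omega)
    exact (h3.mul_left _).mul_right _
  obtain ⟨c, hc⟩ := h2
  refine ⟨X * c, ?_⟩
  rw [← Finset.add_sum_erase _ _ hmem, hc] at h1
  have h4 : p.choose (p - 1) / p = 1 := by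
    have : p.choose (p - 1) = p := by
      obtain ⟨q, rfl⟩ : ∃ q, p = q + 1 := ⟨p - 1, by omega⟩
      simp
    rw [this, Nat.div_self hp.pos]
  have h5 : p - (p - 1) - 1 = 0 := by omega
  have h6 : X ^ (p - 1) = X * X ^ (p - 1 - 1) := by
    rw [← pow_succ']
    congr 1
    omega
  rw [h4, h5, pow_zero, Nat.cast_one, mul_one, mul_one] at h1
  rw [h1, h6]
  ring

theorem step {R : Type u} [CommRing R] (p : ℕ) (hp : p.Prime) (π ε : R) (e a : ℕ)
    (hpe : (p : R) = ε * π ^ e) (ha : 1 ≤ a) (hea : e < a * (p - 1)) (K : ℕ) (hK : a ≤ K)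
    (X Y : R) : ∃ z : R, (X + π ^ K * Y) ^ p =
      X ^ p + π ^ (K + e) * (ε * X ^ (p - 1) * Y + π * z) := by
  obtain ⟨c, hc⟩ := binom_aux p hp X (π ^ K * Y)
  have hp2 := hp.two_le
  obtain ⟨K', rfl⟩ : ∃ K', K = K' + 1 := ⟨K - 1, by omega⟩
  obtain ⟨m, hm⟩ : ∃ m, (K' + 1) * p = (K' + 1) + e + 1 + m := by
    have h1 : a * (p - 1) ≤ (K' + 1) * (p - 1) := Nat.mul_le_mul_right _ hK
    have h2 : (K' + 1) * p = (K' + 1) * (p - 1) + (K' + 1) := by
      conv_lhs => rw [show p = p - 1 + 1 by omega]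
      ring
    exact ⟨(K' + 1) * p - ((K' + 1) + e + 1), by omega⟩
  refine ⟨ε * π ^ K' * (Y ^ 2 * c) + π ^ m * Y ^ p, ?_⟩
  have h3 : (π ^ (K' + 1) * Y) ^ p = π ^ ((K' + 1) + e) * (π * (π ^ m * Y ^ p)) := by
    rw [mul_pow, ← pow_mul, hm]
    ring
  rw [hc, h3, hpe]
  ring

theorem pf_BIN : S_BIN.{u} := by
  intro R _ p hp π ε e a hpe ha hea r
  induction r with
  | zero =>
    intro k _ x y
    refine ⟨0, ?_⟩
    simp
  | succ r ih =>
    intro k hk x y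
    obtain ⟨z, hz⟩ := ih k hk x y
    obtain ⟨z', hz'⟩ := step p hp π ε e a hpe ha hea (k + r * e) (by omega) (x ^ p ^ r)
      (ε ^ r * x ^ (p ^ r - 1) * y + π * z)
    refine ⟨ε * (x ^ p ^ r) ^ (p - 1) * z + z', ?_⟩
    have h1 : (x ^ p ^ r) ^ (p - 1) * x ^ (p ^ r - 1) = x ^ (p ^ (r + 1) - 1) := by
      rw [← pow_mul, ← pow_add]
      congr 1
      have h2 : 1 ≤ p ^ r := Nat.one_le_pow _ _ hp.pos
      have h3 : p ^ r * (p - 1) + p ^ r = p ^ (r + 1) := by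
        rw [pow_succ, ← Nat.mul_succ]
        congr 1
        have := hp.pos
        omega
      omega
    calc (x + π ^ k * y) ^ p ^ (r + 1) = ((x + π ^ k * y) ^ p ^ r) ^ p := by
          rw [← pow_mul, pow_succ]
      _ = (x ^ p ^ r) ^ p + π ^ (k + r * e + e) * (ε * (x ^ p ^ r) ^ (p - 1) *
            (ε ^ r * x ^ (p ^ r - 1) * y + π * z) + π * z') := by rw [hz, hz']
      _ = x ^ p ^ (r + 1) + π ^ (k + (r + 1) * e) * (ε ^ (r + 1) *
            ((x ^ p ^ r) ^ (p - 1) * x ^ (p ^ r - 1)) * y +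
            π * (ε * (x ^ p ^ r) ^ (p - 1) * z + z')) := by
          rw [← pow_mul, ← pow_succ]
          ring
      _ = _ := by rw [h1]

end Pool.Agent.H78.KP
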